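import Pool.Agent.H13Z.FreeP.Exists

open Pool.Agent.H13Z.FreeP

universe u v

/-- For `0 < p < 1` and any pointed metric space `M`, in particular for `M = c₀`, every Banach
space that linearly embeds into the Lipschitz free `p`-space over `M` is finite-dimensional.
The hypothesis `IsFreeP` is satisfiable by `Pool.Agent.H13Z.FreeP.exists_isFreeP`. -/
theorem Pool.Agent.Results.MP_4dc88f_an.ANoBanachSubspace.result :
    ∀ (p : ℝ), 0 < p → p < 1 → ∀ (M : Type u) [MetricSpace M] (o : M)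
      (F : Type u) [AddCommGroup F] [Module ℝ F] (N : F → ℝ) (δ : M → F),
      IsFreeP ℝ p o N δ →
      ∀ (X : Type v) [NormedAddCommGroup X] [NormedSpace ℝ X] [CompleteSpace X]
        (T : X →ₗ[ℝ] F) (c C : ℝ), 0 < c → c ≤ C →
        (∀ x, c * ‖x‖ ≤ N (T x) ∧ N (T x) ≤ C * ‖x‖) → FiniteDimensional ℝ X :=
  fun _ hp hp1 _ _ _ _ _ _ _ _ h _ _ _ _ T _ _ hc _ hT =>
    (h.schur hp hp1).finiteDimensional hp hp1 T hc (fun x => (hT x).1) (fun x => (hT x).2)
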